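import Pool.Agent.H176.DT.Stm
import Pool.Agent.Y454.DT.Ell

set_option autoImplicit false

universe u

namespace Pool.Agent.Y454.DT

/-- DT-ELL -/
theorem ell : Pool.Agent.H176.DT.S_ell.{u} := fun D hD => ell_core D hD

end Pool.Agent.Y454.DT
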